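import Pool.Agent.H961.T3.Stm

/-!
# Project MS: the exact identity with special cycles
-/

set_option autoImplicit false
set_option linter.unusedSectionVars false
set_option linter.unusedVariables false

namespace Pool.Agent.H870.MS

open Finset Equiv Matrix Q292.LC Pool.Agent.H961.T2 Pool.Agent.H961.T3
open Pool.Agent.Q68.LC (EE_smul EE_add)

variable {V : Type} [Fintype V] [DecidableEq V]

theorem pow_agree (g g' : Perm V) (A : Finset V) (hA : Inv g A) (h : ∀ a ∈ A, g a = g' a)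
    (x : V) (hx : x ∈ A) (i : ℕ) : (g ^ i) x = (g' ^ i) x ∧ (g ^ i) x ∈ A := by
  induction i with
  | zero => exact ⟨rfl, hx⟩
  | succ i ih =>
    rw [pow_succ', pow_succ', Perm.mul_apply, Perm.mul_apply]
    refine ⟨?_, hA _ ih.2⟩
    rw [h _ ih.2, ih.1]

theorem cyc_agree (g g' : Perm V) (A : Finset V) (hA : Inv g A) (h : ∀ a ∈ A, g a = g' a)
    (x : V) (hx : x ∈ A) : cyc g x ⊆ cyc g' x := by
  intro y hy
  rw [Pool.Agent.Q153.LC.mem_cyc] at hy ⊢
  obtain ⟨i, -, hi⟩ := hy.exists_pow_eq'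
  have h1 := (pow_agree g g' A hA h x hx i).1
  exact ⟨(i : ℤ), by rw [zpow_natCast, ← h1, hi]⟩

theorem cyc_agree' (g g' : Perm V) (A : Finset V) (hA : Inv g A) (h : ∀ a ∈ A, g a = g' a)
    (x : V) (hx : x ∈ A) : cyc g x = cyc g' x := by
  have hA' : Inv g' A := fun a ha => by
    rw [← h a ha]
    exact hA a ha
  exact Subset.antisymm (cyc_agree g g' A hA h x hx)
    (cyc_agree g' g A hA' (fun a ha => (h a ha).symm) x hx)

theorem filter_agree1 (g g' : Perm V) (A : Finset V) (hA : Inv g A)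
    (h : ∀ a ∈ A, g a = g' a) :
    (cycs g).filter (fun C => C ⊆ A) ⊆ (cycs g').filter (fun C => C ⊆ A) := by
  intro C hC
  rw [mem_filter] at hC ⊢
  refine ⟨?_, hC.2⟩
  obtain ⟨x, -, hx⟩ := mem_image.1 hC.1
  have hxA : x ∈ A := hC.2 (hx ▸ Pool.Agent.Q153.LC.self_mem_cyc g x)
  rw [← hx, cyc_agree' g g' A hA h x hxA]
  exact mem_image.2 ⟨x, mem_univ _, rfl⟩

theorem filter_agree (g g' : Perm V) (A : Finset V) (hA : Inv g A)
    (h : ∀ a ∈ A, g a = g' a) :
    (cycs g).filter (fun C => C ⊆ A) = (cycs g').filter (fun C => C ⊆ A) := by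
  have hA' : Inv g' A := fun a ha => by
    rw [← h a ha]
    exact hA a ha
  exact Subset.antisymm (filter_agree1 g g' A hA h)
    (filter_agree1 g' g A hA' (fun a ha => (h a ha).symm))

theorem theta_meas (e : ℕ → V × V) (n : ℕ) (w : ℝ) (ws : List ℝ) (A : Finset V) :
    Rmeas e n A (fun ω => if Inv (gp e ω n) A then
      th card w ws ((cycs (gp e ω n)).filter fun C => C ⊆ A) else (0 : ℝ)) := by
  intro ω ω' h
  obtain ⟨a1, -⟩ := Pool.Agent.Q68.LC.agree h
  have a2 := a1 n le_rfl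
  have e1 : Inv (gp e ω n) A ↔ Inv (gp e ω' n) A := by
    unfold Q292.LC.Inv
    refine forall₂_congr fun a ha => ?_
    rw [a1 n le_rfl a ha]
  show (if Inv (gp e ω n) A then
      th card w ws ((cycs (gp e ω n)).filter fun C => C ⊆ A) else (0 : ℝ)) =
    (if Inv (gp e ω' n) A then
      th card w ws ((cycs (gp e ω' n)).filter fun C => C ⊆ A) else (0 : ℝ))
  by_cases hA : Inv (gp e ω n) A
  · rw [if_pos hA, if_pos (e1.1 hA), filter_agree _ _ A hA a2]
  · rw [if_neg hA, if_neg (fun h' => hA (e1.2 h'))]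

theorem key_gen (e : ℕ → V × V) (n : ℕ) (δ w : ℝ) (hδ0 : 0 ≤ δ) (hδ1 : δ ≤ 1) (hw0 : 0 ≤ w)
    (hw1 : w < 1) (A : Finset V) (Θ : (ℕ → Bool) → ℝ) (hΘ : Rmeas e n A Θ) (x : V) :
    EE n δ (fun ω => Θ ω *
        (dS w ((univ \ A).erase x) (pm (gp e ω n)) - dS w (univ \ A) (pm (gp e ω n)))) =
      EE n δ (fun ω => (Θ ω *
        Gx w (univ \ A) (TT e ω A δ n) x) * dS w (univ \ A) (pm (gp e ω n))) := by
  have hT := TT_meas e n A δ
  have hΘ2 : Rmeas e n A (fun ω => Θ ω * Gx w (univ \ A) (TT e ω A δ n) x) := by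
    intro ω ω' h
    have h1 := hΘ ω ω' h
    have h2 := hT ω ω' h
    simp only at h1 h2
    show Θ ω * Gx w (univ \ A) (TT e ω A δ n) x = Θ ω' * Gx w (univ \ A) (TT e ω' A δ n) x
    rw [h1, h2]
  have hX0 : Rmeas e n A (fun _ => (1 : Matrix V V ℝ)) := fun _ _ _ => rfl
  have hY : ∀ U : Finset V, Rmeas e n A (fun _ => -(w • dg U)) := fun U _ _ _ => rfl
  have d0 : ∀ (U : Finset V) (P : Matrix V V ℝ), (1 + -(w • dg U) * P).det = dS w U P := by
    intro U P
    unfold dS
    congr 1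
    rw [Matrix.neg_mul, Matrix.smul_mul, sub_eq_add_neg]
  have L : ∀ (Θ : (ℕ → Bool) → ℝ), Rmeas e n A Θ → ∀ U : Finset V,
      EE n δ (fun ω => Θ ω * dS w U (pm (gp e ω n))) =
      EE n δ (fun ω => Θ ω * dS w U (TT e ω A δ n)) := by
    intro Θ hΘ' U
    have l := Pool.Agent.Q257.LC.l1 V e n δ A Θ _ _ hδ0 hδ1 hΘ' hX0 (hY U)
    simp only [d0] at l
    exact l
  have hTpos : ∀ ω, 0 < dS w (univ \ A) (TT e ω A δ n) := by
    intro ω
    obtain ⟨b1, b2, -⟩ := Pool.Agent.Q68.LC.bas2 V e ω A δ hδ0 hδ1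
    exact Pool.Agent.Q68.LC.det_pos (Pool.Agent.Q68.LC.SS_dg
      ⟨fun x y => b1 n x y, fun x => (b2 n x).le⟩ (univ \ A)) hw0 hw1
  have s1 : EE n δ (fun ω => Θ ω *
      (dS w ((univ \ A).erase x) (pm (gp e ω n)) - dS w (univ \ A) (pm (gp e ω n)))) =
      EE n δ (fun ω => Θ ω *
        dS w ((univ \ A).erase x) (pm (gp e ω n))) + (-1) *
      EE n δ (fun ω => Θ ω *
        dS w (univ \ A) (pm (gp e ω n))) := by
    rw [← EE_smul, ← EE_add]
    congr 1
    funext ω
    ring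
  have s2 : EE n δ (fun ω => (Θ ω *
      Gx w (univ \ A) (TT e ω A δ n) x) * dS w (univ \ A) (TT e ω A δ n)) =
      EE n δ (fun ω => Θ ω *
        dS w ((univ \ A).erase x) (TT e ω A δ n)) + (-1) *
      EE n δ (fun ω => Θ ω *
        dS w (univ \ A) (TT e ω A δ n)) := by
    rw [← EE_smul, ← EE_add]
    congr 1
    funext ω
    unfold Gx
    have := (hTpos ω).ne'
    field_simp
    ring
  rw [s1, L _ hΘ, L _ hΘ, ← s2, ← L _ hΘ2]

/-- the cycle of a point of a cycle -/
theorem cyc_eq (g : Perm V) (x y : V) (h : x ∈ cyc g y) : cyc g x = cyc g y := by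
  rw [Pool.Agent.Q153.LC.mem_cyc] at h
  ext z
  rw [Pool.Agent.Q153.LC.mem_cyc, Pool.Agent.Q153.LC.mem_cyc]
  exact ⟨fun hz => h.trans hz, fun hz => h.symm.trans hz⟩

theorem mem_union_iff (g : Perm V) (J : Finset (Finset V)) (hJ : J ⊆ cycs g) (x : V) :
    x ∈ J.biUnion id ↔ cyc g x ∈ J := by
  constructor
  · intro h
    obtain ⟨C, hC, hx⟩ := mem_biUnion.1 h
    obtain ⟨y, -, hy⟩ := mem_image.1 (hJ hC)
    have hx' : x ∈ cyc g y := by
      rw [hy]
      exact hx
    rw [cyc_eq g x y hx', hy]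
    exact hC
  · intro h
    exact mem_biUnion.2 ⟨_, h, Pool.Agent.Q153.LC.self_mem_cyc g x⟩

/-- the difference of the determinants -/
theorem diff_eq (hCYC : S_CYC) (g : Perm V) (w : ℝ) (J : Finset (Finset V)) (hJ : J ⊆ cycs g)
    (x : V) (hx : x ∉ J.biUnion id) :
    dS w ((univ \ J.biUnion id).erase x) (pm g) - dS w (univ \ J.biUnion id) (pm g) =
      w ^ (cyc g x).card * ∏ C ∈ cycs g \ insert (cyc g x) J, (1 - w ^ C.card) := by
  obtain ⟨-, c2, -, c4, -⟩ := hCYC V g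
  have hA := (c2 J hJ).2
  have hd := disj_cyc g _ hA x hx
  have hself : x ∈ cyc g x := Pool.Agent.Q153.LC.self_mem_cyc g x
  have hins : insert (cyc g x) J ⊆ cycs g :=
    insert_subset (mem_image.2 ⟨x, mem_univ _, rfl⟩) hJ
  have h0 : univ \ (insert (cyc g x) J).biUnion id = (univ \ J.biUnion id) \ cyc g x := by
    ext y
    simp only [mem_sdiff, mem_biUnion, mem_insert, id_eq, mem_univ, true_and, exists_eq_or_imp]
    rw [not_or, and_comm]
  have h2 : ((univ \ J.biUnion id).erase x) \ cyc g x = (univ \ J.biUnion id) \ cyc g x := by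
    ext y
    simp only [mem_sdiff, mem_erase]
    constructor
    · rintro ⟨⟨-, h⟩, h'⟩
      exact ⟨h, h'⟩
    · rintro ⟨h, h'⟩
      exact ⟨⟨fun hyx => h' (hyx ▸ hself), h⟩, h'⟩
  have h3 : dS w ((univ \ J.biUnion id).erase x) (pm g) =
      dS w ((univ \ J.biUnion id) \ cyc g x) (pm g) := by
    rw [← h2]
    exact Pool.Agent.Q153.LC.dS_sdiff w _ g x (notMem_erase x _) _ subset_rfl
  have h4 : dS w (univ \ J.biUnion id) (pm g) =
      (1 - w ^ (cyc g x).card) * dS w ((univ \ J.biUnion id) \ cyc g x) (pm g) := by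
    refine Pool.Agent.Q153.LC.p4d w _ g x (mem_sdiff.2 ⟨mem_univ _, hx⟩) ?_
    intro y hy
    exact mem_sdiff.2 ⟨mem_univ _, fun h => (disjoint_left.1 hd) h hy⟩
  rw [← c4 w _ hins, h0, h3, h4]
  ring

/-- the sum over the points outside -/
theorem sum_diff (hCYC : S_CYC) (g : Perm V) (w : ℝ) (J : Finset (Finset V)) (hJ : J ⊆ cycs g) :
    ∑ x ∈ univ \ J.biUnion id, (dS w ((univ \ J.biUnion id).erase x) (pm g) -
      dS w (univ \ J.biUnion id) (pm g)) =
    ∑ C ∈ cycs g, (if C ∈ J then 0 else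
      (C.card : ℝ) * w ^ C.card * ∏ C' ∈ cycs g \ insert C J, (1 - w ^ C'.card)) := by
  obtain ⟨-, c2, -, c4, c5⟩ := hCYC V g
  have h1 : ∑ x ∈ univ \ J.biUnion id, (dS w ((univ \ J.biUnion id).erase x) (pm g) -
      dS w (univ \ J.biUnion id) (pm g)) =
      ∑ x : V, (fun C : Finset V => if C ∈ J then (0 : ℝ) else
        w ^ C.card * ∏ C' ∈ cycs g \ insert C J, (1 - w ^ C'.card)) (cyc g x) := by
    rw [← sum_subset (subset_univ (univ \ J.biUnion id))]
    · refine sum_congr rfl fun x hx => ?_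
      have hx' : x ∉ J.biUnion id := (mem_sdiff.1 hx).2
      have hx'' : cyc g x ∉ J := fun h => hx' ((mem_union_iff g J hJ x).2 h)
      rw [diff_eq hCYC g w J hJ x hx']
      show _ = if cyc g x ∈ J then (0 : ℝ) else _
      rw [if_neg hx'']
    · intro x _ hx
      have hx' : x ∈ J.biUnion id := by
        by_contra h
        exact hx (mem_sdiff.2 ⟨mem_univ _, h⟩)
      show (if cyc g x ∈ J then (0 : ℝ) else _) = 0
      rw [if_pos ((mem_union_iff g J hJ x).1 hx')]
  rw [h1]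
  refine (c5 (fun C : Finset V => if C ∈ J then (0 : ℝ) else
        w ^ C.card * ∏ C' ∈ cycs g \ insert C J, (1 - w ^ C'.card))).trans ?_
  refine sum_congr rfl fun C _ => ?_
  by_cases hC : C ∈ J
  · simp only [hC, if_true, mul_zero]
  · simp only [hC, if_false]
    ring

/-- the pointwise identity -/
theorem pointwise (hMASS : S_MASS) (hCYC : S_CYC) (g : Perm V) (w : ℝ) (ws : List ℝ) :
    ∑ A : Finset V, (if Inv g A then th card w ws ((cycs g).filter fun C => C ⊆ A) *
      ∑ x ∈ univ \ A, (dS w ((univ \ A).erase x) (pm g) - dS w (univ \ A) (pm g)) else 0) =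
    ph (ι := Finset V) card (w :: ws) (cycs g) := by
  obtain ⟨c1, c2, -, c4, c5⟩ := hCYC V g
  rw [c1 (fun A => th card w ws ((cycs g).filter fun C => C ⊆ A) *
      ∑ x ∈ univ \ A, (dS w ((univ \ A).erase x) (pm g) - dS w (univ \ A) (pm g)))]
  have h1 : ∀ J ∈ (cycs g).powerset, (fun A => th card w ws ((cycs g).filter fun C => C ⊆ A) *
      ∑ x ∈ univ \ A, (dS w ((univ \ A).erase x) (pm g) - dS w (univ \ A) (pm g)))
        (J.biUnion id) =
      ∑ C ∈ cycs g, (if C ∈ J then 0 else (C.card : ℝ) * w ^ C.card *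
        (th card w ws J * ∏ C' ∈ cycs g \ insert C J, (1 - w ^ C'.card))) := by
    intro J hJ
    have hJ' := mem_powerset.1 hJ
    show th card w ws ((cycs g).filter fun C => C ⊆ J.biUnion id) *
      ∑ x ∈ univ \ J.biUnion id, (dS w ((univ \ J.biUnion id).erase x) (pm g) -
        dS w (univ \ J.biUnion id) (pm g)) = _
    rw [(c2 J hJ').1, sum_diff hCYC g w J hJ', mul_sum]
    refine sum_congr rfl fun C _ => ?_
    by_cases hC : C ∈ J
    · simp only [hC, if_true, mul_zero]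
    · simp only [hC, if_false]
      ring
  rw [sum_congr rfl h1, sum_comm]
  show _ = ∑ C ∈ cycs g, (C.card : ℝ) * w ^ C.card * ph card ws ((cycs g).erase C)
  refine sum_congr rfl fun C hC => ?_
  rw [← hMASS (Finset V) card w ws ((cycs g).erase C), mul_sum]
  have hsub : ((cycs g).erase C).powerset ⊆ (cycs g).powerset :=
    powerset_mono.2 (erase_subset _ _)
  rw [← sum_subset hsub]
  · refine sum_congr rfl fun J hJ => ?_
    have hJ' := mem_powerset.1 hJ
    have hCJ : C ∉ J := fun h => (notMem_erase C (cycs g)) (hJ' h)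
    rw [if_neg hCJ]
    have h3 : cycs g \ insert C J = (cycs g).erase C \ J := by
      ext y
      simp only [mem_sdiff, mem_insert, mem_erase]
      tauto
    rw [h3]
  · intro J hJ hJn
    have hJ' := mem_powerset.1 hJ
    have hCJ : C ∈ J := by
      by_contra h
      exact hJn (mem_powerset.2 fun y hy => mem_erase.2 ⟨fun hyC => h (hyC ▸ hy), hJ' hy⟩)
    rw [if_pos hCJ]

theorem star_k (hMASS : S_MASS) (hCYC : S_CYC) : S_STAR := by
  intro V _ _ e n δ w ws hδ0 hδ1 hw0 hw1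
  have h1 : (fun ω => ph (ι := Finset V) card (w :: ws) (cycs (gp e ω n))) =
      (fun ω => ∑ A : Finset V, ∑ x ∈ univ \ A, (if Inv (gp e ω n) A then
        th card w ws ((cycs (gp e ω n)).filter fun C => C ⊆ A) else (0 : ℝ)) *
        (dS w ((univ \ A).erase x) (pm (gp e ω n)) - dS w (univ \ A) (pm (gp e ω n)))) := by
    funext ω
    rw [← pointwise hMASS hCYC (gp e ω n) w ws]
    refine sum_congr rfl fun A _ => ?_
    rw [← mul_sum]
    by_cases hA : Inv (gp e ω n) A
    · rw [if_pos hA, if_pos hA]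
    · rw [if_neg hA, if_neg hA, zero_mul]
  have h2 : (fun ω => ∑ A : Finset V, if Inv (gp e ω n) A then
      th card w ws ((cycs (gp e ω n)).filter fun C => C ⊆ A) *
        dS w (univ \ A) (pm (gp e ω n)) *
        ∑ x ∈ univ \ A, Gx w (univ \ A) (TT e ω A δ n) x else 0) =
      (fun ω => ∑ A : Finset V, ∑ x ∈ univ \ A, ((if Inv (gp e ω n) A then
        th card w ws ((cycs (gp e ω n)).filter fun C => C ⊆ A) else (0 : ℝ)) *
        Gx w (univ \ A) (TT e ω A δ n) x) * dS w (univ \ A) (pm (gp e ω n))) := by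
    funext ω
    refine sum_congr rfl fun A _ => ?_
    by_cases hA : Inv (gp e ω n) A
    · rw [if_pos hA, mul_sum]
      refine sum_congr rfl fun x _ => ?_
      rw [if_pos hA]
      ring
    · rw [if_neg hA]
      symm
      refine sum_eq_zero fun x _ => ?_
      rw [if_neg hA]
      ring
  rw [h1]
  refine Eq.trans ?_ (congrArg (EE n δ) h2).symm
  rw [Pool.Agent.Q277.LC.EE_sum, Pool.Agent.Q277.LC.EE_sum]
  refine sum_congr rfl fun A _ => ?_
  rw [Pool.Agent.Q277.LC.EE_sum, Pool.Agent.Q277.LC.EE_sum]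
  refine sum_congr rfl fun x _ => ?_
  exact key_gen e n δ w hδ0 hδ1 hw0 hw1 A _ (theta_meas e n w ws A) x

end Pool.Agent.H870.MS
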